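import Mathlib

/-!
MP_cec948_nt, Q1 (a) fails for `p = 13` (sign of `T_p`).
-/

set_option autoImplicit false

namespace Pool.Agent.Results.MP_cec948_nt.FailsAt13

/-- `binom(a,k) = a (a-1) ... (a-k+1) / k!` -/
def binom (a : ℚ) (k : ℕ) : ℚ := (∏ i ∈ Finset.range k, (a - i)) / k.factorial

def S (p : ℕ) : ℚ := ∑ k ∈ Finset.range p, binom (-1 / 4) k * binom (-1 / 2) k / (-3) ^ k

def T (p : ℕ) : ℚ := ∑ k ∈ Finset.range p, binom (-1 / 4) k * binom (-1 / 2) k / 81 ^ k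

/-- `a ≡ b (mod p^m)`: `(a-b)/p^m` is `p`-integral -/
def Cong (p m : ℕ) (a b : ℚ) : Prop := ¬ p ∣ ((a - b) / (p : ℚ) ^ m).den

/-- part (a) for the prime `p ≡ 1 (mod 4)` -/
def PartA (p : ℕ) : Prop :=
  ∃ x : ℤ, Odd x ∧ (∃ y : ℤ, (p : ℤ) = x ^ 2 + y ^ 2) ∧
    Cong p 2 (S p) (2 * x - p / (2 * x)) ∧
    Cong p 2 ((-1) ^ ((p - 1) / 4) * T p) (2 * x - p / (2 * x))

/-- part (b) for the prime `p ≡ 3 (mod 4)` -/
def PartB (p : ℕ) : Prop := Cong p 1 (S p) 0 ∧ Cong p 1 (T p) 0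

/-- the statement of Q1 -/
def Q1 : Prop := ∀ p : ℕ, p.Prime → 5 ≤ p → (p % 4 = 1 → PartA p) ∧ (p % 4 = 3 → PartB p)

theorem x_cases {x y : ℤ} (hx : Odd x) (h : (13 : ℤ) = x ^ 2 + y ^ 2) : x = 3 ∨ x = -3 := by
  have h1 : x ^ 2 ≤ 13 := by nlinarith [sq_nonneg y]
  have h2 : x ≤ 3 := by nlinarith
  have h3 : -3 ≤ x := by nlinarith
  obtain ⟨k, hk⟩ := hx
  have hx' : x = 3 ∨ x = -3 ∨ x = 1 ∨ x = -1 := by omega
  have h4 : ¬ (y ^ 2 = 12) := by
    intro h5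
    have h6 : y ≤ 3 := by nlinarith
    have h7 : -3 ≤ y := by nlinarith
    interval_cases y <;> omega
  rcases hx' with h | rfl | rfl | rfl
  · exact Or.inl h
  · exact Or.inr rfl
  · exact absurd (by linarith) h4
  · exact absurd (by linarith) h4

/-- the statement of Q1 is false: part (a) fails at `p = 13` -/
theorem result : ¬ PartA 13 ∧ ¬ Q1 := by
  have key : ¬ PartA 13 := by
    rintro ⟨x, hx, ⟨y, hy⟩, h1, h2⟩
    rcases x_cases hx (by exact_mod_cast hy) with rfl | rfl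
    · apply h2
      decide +kernel
    · apply h1
      decide +kernel
  exact ⟨key, fun h => key ((h 13 (by norm_num) (by norm_num)).1 (by norm_num))⟩

end Pool.Agent.Results.MP_cec948_nt.FailsAt13
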